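import Pool.Agent.V5helper14.Sep.Stm
import Pool.Agent.V5helper14.Hel.Final

/-!
# Project SE, job MC
-/

set_option autoImplicit false

namespace Pool.Agent.V5helper69.SE

open Matrix Filter Pool.Agent.V5helper14.Hel Pool.Agent.V5helper14.Sep

variable {k : ℕ}

/-- the rows `(1, φ 0)`, `(0, φ e_l)` and the last row `r` -/
noncomputable def V (φ : (Fin k → ℝ) →ᵃ[ℝ] (Fin (k + 1) → ℝ)) (r : Fin (k + 2) → ℝ) :
    Matrix (Fin (k + 2)) (Fin (k + 2)) ℝ :=
  Matrix.of (Fin.snoc (α := fun _ => Fin (k + 2) → ℝ)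
    (Fin.cons (Fin.cons 1 (φ 0) : Fin (k + 2) → ℝ)
      (fun l => (Fin.cons 0 (φ.linear (Pi.single l 1)) : Fin (k + 2) → ℝ)) :
        Fin (k + 1) → Fin (k + 2) → ℝ) r)

theorem V_last (φ : (Fin k → ℝ) →ᵃ[ℝ] (Fin (k + 1) → ℝ)) (r : Fin (k + 2) → ℝ) :
    V φ r (Fin.last (k + 1)) = r :=
  Fin.snoc_last (α := fun _ => Fin (k + 2) → ℝ) _ _

theorem V_castSucc (φ : (Fin k → ℝ) →ᵃ[ℝ] (Fin (k + 1) → ℝ)) (r : Fin (k + 2) → ℝ)
    (i : Fin (k + 1)) :
    V φ r i.castSucc = (Fin.cons (Fin.cons 1 (φ 0) : Fin (k + 2) → ℝ)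
      (fun l => (Fin.cons 0 (φ.linear (Pi.single l 1)) : Fin (k + 2) → ℝ)) :
        Fin (k + 1) → Fin (k + 2) → ℝ) i :=
  Fin.snoc_castSucc (α := fun _ => Fin (k + 2) → ℝ) _ _ i

/-- the rows `(1, x (f i), 0)` and `(0, ..., 0, 1)` -/
noncomputable def A {ι : Type*} (x : ι → Fin k → ℝ) (f : Fin (k + 1) → ι) :
    Matrix (Fin (k + 2)) (Fin (k + 2)) ℝ :=
  Matrix.of (Fin.snoc (α := fun _ => Fin (k + 2) → ℝ)
    (fun i => (Fin.snoc (α := fun _ => ℝ) (Fin.cons 1 (x (f i)) : Fin (k + 1) → ℝ) 0))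
    (Pi.single (Fin.last (k + 1)) 1))

theorem det_A {ι : Type*} (x : ι → Fin k → ℝ) (f : Fin (k + 1) → ι) :
    (A x f).det = orient x f := by
  rw [Matrix.det_succ_row (A x f) (Fin.last (k + 1)), Finset.sum_eq_single (Fin.last (k + 1))]
  · have h1 : A x f (Fin.last (k + 1)) (Fin.last (k + 1)) = 1 := by
      unfold A
      rw [Matrix.of_apply, Fin.snoc_last, Pi.single_eq_same]
    rw [h1, mul_one, ← two_mul, pow_mul]
    norm_num
    unfold orient
    congr 1
    ext i j
    rw [Matrix.submatrix_apply, Matrix.of_apply]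
    unfold A
    simp only [Matrix.of_apply, Fin.snoc_castSucc]
  · intro j _ hj
    have h1 : A x f (Fin.last (k + 1)) j = 0 := by
      unfold A
      rw [Matrix.of_apply, Fin.snoc_last, Pi.single_eq_of_ne hj]
    rw [h1, mul_zero, zero_mul]
  · intro h
    exact absurd (Finset.mem_univ _) h

theorem fac {ι : Type*} (φ : (Fin k → ℝ) →ᵃ[ℝ] (Fin (k + 1) → ℝ)) (x : ι → Fin k → ℝ)
    (r : Fin (k + 2) → ℝ) (f : Fin (k + 1) → ι) :
    hdet (fun i => φ (x i)) r f = orient x f * (V φ r).det := by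
  rw [← det_A, ← Matrix.det_mul]
  unfold hdet
  congr 1
  ext i j
  rw [Matrix.mul_apply, Fin.sum_univ_castSucc]
  refine Fin.lastCases ?_ (fun i => ?_) i
  · rw [Matrix.of_apply, Fin.snoc_last]
    have h1 : ∀ l : Fin (k + 1), A x f (Fin.last (k + 1)) l.castSucc = 0 := by
      intro l
      unfold A
      rw [Matrix.of_apply, Fin.snoc_last, Pi.single_eq_of_ne (Fin.castSucc_lt_last l).ne]
    have h2 : A x f (Fin.last (k + 1)) (Fin.last (k + 1)) = 1 := by
      unfold A
      rw [Matrix.of_apply, Fin.snoc_last, Pi.single_eq_same]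
    rw [h2, V_last, one_mul, Finset.sum_eq_zero fun l _ => by rw [h1, zero_mul], zero_add]
  · rw [Matrix.of_apply, Fin.snoc_castSucc]
    have h1 : ∀ l : Fin (k + 1), A x f i.castSucc l.castSucc =
        (Fin.cons 1 (x (f i)) : Fin (k + 1) → ℝ) l := by
      intro l
      unfold A
      rw [Matrix.of_apply, Fin.snoc_castSucc, Fin.snoc_castSucc]
    have h2 : A x f i.castSucc (Fin.last (k + 1)) = 0 := by
      unfold A
      rw [Matrix.of_apply, Fin.snoc_castSucc, Fin.snoc_last]
    rw [h2, zero_mul, add_zero, Fin.sum_univ_succ]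
    simp only [h1, V_castSucc, Fin.cons_zero, Fin.cons_succ, one_mul]
    unfold Pool.Agent.V5helper14.Sep.row
    refine Fin.cases ?_ (fun j => ?_) j
    · simp
    · simp only [Fin.cons_succ]
      have h3 : φ (x (f i)) = φ.linear (x (f i)) + φ 0 := by
        rw [AffineMap.decomp φ]
        simp
      have h4 := congrFun (LinearMap.pi_apply_eq_sum_univ φ.linear (x (f i))) j
      rw [h3, Pi.add_apply, h4, Finset.sum_apply, add_comm]
      congr 1
      apply Finset.sum_congr rfl
      intro l _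
      have hs : (fun j => if l = j then (1 : ℝ) else 0) = Pi.single l 1 := by
        ext j'
        simp [Pi.single_apply, eq_comm]
      rw [Pi.smul_apply, smul_eq_mul, hs]

theorem det_V_ne {φ : (Fin k → ℝ) →ᵃ[ℝ] (Fin (k + 1) → ℝ)} (hφ : Function.Injective φ)
    {N : Fin (k + 1) → ℝ} {c : ℝ} (hN : N ≠ 0) (hc : ∀ v, N ⬝ᵥ φ v = c) :
    (V φ (Fin.cons (-c) N)).det ≠ 0 := by
  set L : Fin (k + 2) → ℝ := Fin.cons (-c) N with hL
  intro h0
  obtain ⟨v, hv, hvV⟩ := Matrix.exists_vecMul_eq_zero_iff.2 h0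
  have hLL : L ⬝ᵥ L ≠ 0 := by
    rw [Ne, dotProduct_self_eq_zero]
    intro h
    apply hN
    ext i
    have := congrFun h i.succ
    simpa [hL] using this
  have hlin : ∀ w : Fin k → ℝ, N ⬝ᵥ φ.linear w = 0 := by
    intro w
    have h1 : φ w = φ.linear w + φ 0 := by
      rw [AffineMap.decomp φ]
      simp
    have h2 := hc w
    rw [h1, dotProduct_add, hc 0] at h2
    linarith
  -- the relation of the rows
  have hrel : ∀ j, ∑ i : Fin (k + 1), v i.castSucc * V φ L i.castSucc j +
      v (Fin.last (k + 1)) * L j = 0 := by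
    intro j
    have h1 := congrFun hvV j
    rw [Matrix.vecMul, dotProduct, Fin.sum_univ_castSucc] at h1
    rw [V_last] at h1
    exact h1
  have hW : ∀ i : Fin (k + 1), L ⬝ᵥ V φ L i.castSucc = 0 := by
    intro i
    rw [V_castSucc]
    refine Fin.cases ?_ (fun l => ?_) i
    · rw [Fin.cons_zero, dotProduct, Fin.sum_univ_succ]
      simp only [hL, Fin.cons_zero, Fin.cons_succ, mul_one]
      have := hc 0
      rw [dotProduct] at this
      linarith
    · rw [Fin.cons_succ, dotProduct, Fin.sum_univ_succ]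
      simp only [hL, Fin.cons_zero, Fin.cons_succ, mul_zero, zero_add]
      exact hlin _
  have hlast : v (Fin.last (k + 1)) = 0 := by
    have h1 : ∑ j, L j * (∑ i : Fin (k + 1), v i.castSucc * V φ L i.castSucc j +
        v (Fin.last (k + 1)) * L j) = 0 := by
      simp only [hrel, mul_zero, Finset.sum_const_zero]
    simp only [mul_add, Finset.sum_add_distrib, Finset.mul_sum] at h1
    rw [Finset.sum_comm] at h1
    have h2 : ∀ i : Fin (k + 1), ∑ j, L j * (v i.castSucc * V φ L i.castSucc j) = 0 := by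
      intro i
      have h3 : ∑ j, L j * (v i.castSucc * V φ L i.castSucc j) =
          v i.castSucc * (L ⬝ᵥ V φ L i.castSucc) := by
        rw [dotProduct, Finset.mul_sum]
        exact Finset.sum_congr rfl fun j _ => by ring
      rw [h3, hW, mul_zero]
    simp only [h2, Finset.sum_const_zero, zero_add] at h1
    have h4 : ∑ j, L j * (v (Fin.last (k + 1)) * L j) = v (Fin.last (k + 1)) * (L ⬝ᵥ L) := by
      rw [dotProduct, Finset.mul_sum]
      exact Finset.sum_congr rfl fun j _ => by ring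
    rw [h4] at h1
    exact (mul_eq_zero.1 h1).resolve_right hLL
  have hrel' : ∀ j, v (Fin.castSucc 0) * (Fin.cons 1 (φ 0) : Fin (k + 2) → ℝ) j +
      ∑ l : Fin k, v l.succ.castSucc *
        (Fin.cons 0 (φ.linear (Pi.single l 1)) : Fin (k + 2) → ℝ) j = 0 := by
    intro j
    have h1 := hrel j
    rw [hlast, zero_mul, add_zero, Fin.sum_univ_succ] at h1
    simp only [V_castSucc, Fin.cons_zero, Fin.cons_succ] at h1
    exact h1
  have hv0 : v (Fin.castSucc 0) = 0 := by
    have h1 := hrel' 0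
    simpa using h1
  have hker : φ.linear (fun l => v l.succ.castSucc) = 0 := by
    ext j
    have h1 := hrel' j.succ
    rw [hv0, zero_mul, zero_add] at h1
    simp only [Fin.cons_succ] at h1
    have h5 := congrFun (LinearMap.pi_apply_eq_sum_univ φ.linear
      (fun l => v l.succ.castSucc)) j
    rw [h5, Finset.sum_apply, Pi.zero_apply]
    refine Eq.trans ?_ h1
    apply Finset.sum_congr rfl
    intro l _
    have hs : (fun j => if l = j then (1 : ℝ) else 0) = Pi.single l 1 := by
      ext j'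
      simp [Pi.single_apply, eq_comm]
    rw [Pi.smul_apply, smul_eq_mul, hs]
  have hinj : Function.Injective φ.linear := (AffineMap.linear_injective_iff φ).2 hφ
  have hvl : (fun l : Fin k => v l.succ.castSucc) = 0 := hinj (by rw [hker, map_zero])
  apply hv
  ext i
  refine Fin.lastCases hlast (fun i => ?_) i
  refine Fin.cases hv0 (fun l => ?_) i
  exact congrFun hvl l

theorem t_MC : S_MC := by
  rintro k n a p B ⟨φ, hφ, x, hxa, hsame⟩
  obtain ⟨N, hN, c, hc⟩ := exists_normal φ
  have hD := det_V_ne hφ hN hc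
  set L : Fin (k + 2) → ℝ := Fin.cons (-c) N with hL
  have hLL : L ⬝ᵥ L ≠ 0 := by
    rw [Ne, dotProduct_self_eq_zero]
    intro h
    apply hN
    ext i
    have := congrFun h i.succ
    simpa [hL] using this
  have hneg : (V φ (-L)).det = -(V φ L).det := by
    rw [Matrix.det_succ_row (V φ (-L)) (Fin.last (k + 1)),
      Matrix.det_succ_row (V φ L) (Fin.last (k + 1)), ← Finset.sum_neg_distrib]
    apply Finset.sum_congr rfl
    intro j _
    rw [V_last, V_last]
    have h1 : (V φ (-L)).submatrix (Fin.last (k + 1)).succAbove j.succAbove =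
        (V φ L).submatrix (Fin.last (k + 1)).succAbove j.succAbove := by
      ext i l
      rw [Matrix.submatrix_apply, Matrix.submatrix_apply, Fin.succAbove_last, V_castSucc,
        V_castSucc]
    rw [h1, Pi.neg_apply]
    ring
  obtain ⟨r, hr, hrD⟩ : ∃ r : Fin (k + 2) → ℝ, L ⬝ᵥ r ≠ 0 ∧ 0 < (V φ r).det := by
    rcases lt_or_gt_of_ne hD with h | h
    · refine ⟨-L, ?_, ?_⟩
      · rw [dotProduct_neg, neg_ne_zero]
        exact hLL
      · rw [hneg]
        linarith
    · exact ⟨L, hLL, h⟩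
  refine ⟨L, r, fun i => φ (x i), ?_, hr, fun i hi => ⟨hxa i hi, ?_⟩, fun f hf hfB => ?_⟩
  · rw [hL, Fin.tail_cons]
    exact hN
  · unfold Pool.Agent.V5helper14.Sep.row
    rw [hL, dotProduct, Fin.sum_univ_succ]
    simp only [Fin.cons_zero, Fin.cons_succ, mul_one]
    have := hc (x i)
    rw [dotProduct] at this
    linarith
  · rw [fac, sign_mul, sign_pos hrD, mul_one]
    exact hsame f hf hfB

end Pool.Agent.V5helper69.SE
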